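import Pool.Agent.N944.AD.Top

/-!
# Densest discs, holes and Assouad dimension of the scaling limits of the critical interface

Critical bond percolation (`q = 1`) on `δ ℤ²` in a rectangle `D = (-A, B) × (0, H)`, with the
counterclockwise boundary arc from `a = t + i H` to `b = 0` wired and the other one dual-wired. The
interface is parametrised by its number of steps: `Rect.curve` is the piecewise linear curve on
`[0, 1]` run at constant speed, and `Rect.time` is the number of steps times `δ ^ (7/4)`; `Rect.law`
is the law of (curve, time). Weak limits exist along a subsequence of every sequence of meshes. Let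
`gap(r) = r (log (1/r)) ^ (-1/2)`. There are absolute constants `c, C > 0` such that for every
rectangle and every weak limit `(f, T)`, almost surely:

* for all small `r`, every disc of radius `r` of the plane contains a disc of radius `c gap(r)`
  which the whole curve avoids;
* for every time interval `[s, t]`, `s < t`, and all small `r`, some disc of radius `r` has all its
  points within distance `C gap(r)` of the piece `f [s, t]`;
* every piece `f [s, t]`, `s < t`, has Assouad dimension `2` (its Hausdorff dimension is `7/4`).

So the size of the smallest of the largest holes of the discs of radius `r` is `gap(r)` up to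
absolute constants, for the curve and for each of its pieces: the discs of radius `r` can not be
filled beyond `gap(r)`, and are filled up to it by every piece of the curve, at all small scales.

Definitions: `gap`, `Cov`, `dimA` below; `Pool.Agent.H984R4.NP.Model` (`Rect`, `pos`, `clamp`, `pl`,
`X`, `Rect.dm`, `Rect.curve`, `Rect.time`, `Rect.law`), `Pool.Agent.H984R4.NP.Defs` (`Dm`,
`Dm.edges`, `Dm.wir`, `Dm.cfg`, `Dm.walk`, `Dm.len`) and `Pool.Agent.H984R3.Per.Defs` (states, `ae`,
`mv`, `rt`, `nxt`, `orb`).

Plan of the proof. Holes: at mesh `δ`, the path visits all the squares of an `N × N` array of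
squares of side `r` separated by distance `M r` with probability at most `2 ^ (-N²)`, by
independence and the one-arm estimate; a union bound over the arrays with `N² ≈ log (1/r)`.
Dense discs: the trial at the tip of the path of the starting files (a comb of `kk` teeth, of cost
`exp (-K kk²)`, with `kk² ≈ log (1/r)`) makes the path cross the teeth one after the other without
escaping, hence come close to every point of a disc. Assouad dimension: compare volumes.
-/

set_option autoImplicit false

namespace Pool.Agent.Results.MP_fe58d8_pr.AssouadDimension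

open H984N MeasureTheory Filter Topology

/-- `gap(r) = r (log (1/r)) ^ (-1/2)` -/
noncomputable def gap (r : ℝ) : ℝ := r / Real.sqrt (Real.log (1 / r))

/-- `F` is covered by at most `n` closed discs of radius `ρ`. -/
def Cov (n ρ : ℝ) (F : Set ℂ) : Prop :=
  ∃ S : Finset ℂ, (S.card : ℝ) ≤ n ∧ F ⊆ ⋃ y ∈ S, Metric.closedBall y ρ

/-- The Assouad dimension: the infimum of the `α ≥ 0` for which there is `C` such that for all
`x ∈ F` and `0 < ρ < r`, `F ∩ B(x, r)` is covered by at most `C (r/ρ) ^ α` discs of radius `ρ`. -/
noncomputable def dimA (F : Set ℂ) : ℝ :=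
  sInf {α : ℝ | 0 ≤ α ∧ ∃ C : ℝ, ∀ x ∈ F, ∀ ρ r : ℝ, 0 < ρ → ρ < r →
    Cov (C * (r / ρ) ^ α) ρ (F ∩ Metric.closedBall x r)}

theorem result : ∃ c C : ℝ, 0 < c ∧ 0 < C ∧ ∀ R : Rect,
    (∀ δ : ℕ → ℝ, (∀ i, 0 < δ i) → Tendsto δ atTop (𝓝 0) →
      ∃ φ : ℕ → ℕ, StrictMono φ ∧ ∃ μ : ProbabilityMeasure X,
        Tendsto (fun i => R.law (δ (φ i))) atTop (𝓝 μ)) ∧
    ∀ δ : ℕ → ℝ, (∀ i, 0 < δ i) → Tendsto δ atTop (𝓝 0) → ∀ μ : ProbabilityMeasure X,
      Tendsto (fun i => R.law (δ i)) atTop (𝓝 μ) →
      ∀ᵐ p ∂(μ : Measure X),
        (∀ᶠ r : ℝ in 𝓝[>] 0, ∀ z : ℂ, ∃ y : ℂ,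
          Metric.closedBall y (c * gap r) ⊆ Metric.closedBall z r ∧
            ∀ u : unitInterval, p.1 u ∉ Metric.closedBall y (c * gap r)) ∧
        ∀ s t : unitInterval, s < t →
          (∀ᶠ r : ℝ in 𝓝[>] 0, ∃ z : ℂ, ∀ y ∈ Metric.closedBall z r,
            ∃ u ∈ Set.Icc s t, dist (p.1 u) y ≤ C * gap r) ∧
          dimA (p.1 '' Set.Icc s t) = 2 :=
  Pool.Agent.N944.AD.top

end Pool.Agent.Results.MP_fe58d8_pr.AssouadDimension
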