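import Pool.Agent.N948.IX.Lim
import Pool.Agent.N948.IX.Fin2
import Pool.Agent.Results.MP_6c8efb_pr.Displacement
import Pool.Agent.Results.MP_6c8efb_pr.UniformDimension

/-!
# Local cut points of the half-plane exploration path of critical bond percolation

Critical bond percolation on `ℤ × ℕ`, the edges `[x, x + 1]` of the real axis open for `x < 0` and
closed for `x ≥ 0`. The exploration path starts next to the origin and keeps the open cluster `C_-`
of the negative half-axis on its left; `gam ω k` is its point after `k` steps, and `curve n ω` is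
the path `n ^ (-4/7) γ(n t)`, `0 ≤ t ≤ 1`, with law `lawH n`. Weak limits exist along a subsequence of
every sequence `n → ∞`.

A local cut point of a curve `f` is a point `f t` such that the piece of `f` just before `t` and the
piece just after `t` are disjoint.

For every weak limit and every fixed set `T` (no measurability is assumed), almost surely:
* the local cut points in `T ∩ upperHalf` form a set of dimension at most `dimH T - 5/4`, and the times
  at which the curve is at such a point form a set of dimension at most `4/7 (dimH T - 5/4)`;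
* there are none if the `5/4`-dimensional Hausdorff measure of `T` is zero.
For `T = ℂ` these dimensions are at most `3/4` and `3/7`; there are no local cut points on a Lipschitz
curve (a line, a circle).

Definitions: `Pool.Agent.H984R4.HN.HPDefs` (`Conf`, `perc`, `opn`, `step`, `path`, `place`, `gam`,
`curve`), `Pool.Agent.H984R4.HN.FinalH` (`lawH`), `Pool.Agent.H984R4.NP.Model` (`pl`, `clamp`).

New: the upper bound `(a / b) ^ (5/4)` for two adjacent open and two adjacent closed arms
(project IX, `Pool.Agent.N948.IX`), and its application to the curves (`Lim`, helper72). Used from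
the library: the uniform dimension theorem, the properties of the weak limits.
-/

set_option autoImplicit false

namespace Pool.Agent.N948.Shelf.CutPoints

open H984H MeasureTheory Filter Topology
open scoped ENNReal NNReal

/-- The open upper half-plane. -/
def upperHalf : Set ℂ := {w | 0 < w.im}

/-- The local cut points of a curve: the points `f t` such that for some `s < t < u` the pieces
`f [s, t)` and `f (t, u]` are disjoint. -/
def localCutPoints (f : C(unitInterval, ℂ)) : Set ℂ :=
  {z | ∃ s t u : unitInterval, s < t ∧ t < u ∧ f t = z ∧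
    Disjoint (f '' Set.Ico s t) (f '' Set.Ioc t u)}

/-- The times at which `f` is in `S`. -/
def times (f : C(unitInterval, ℂ)) (S : Set ℂ) : Set unitInterval := {s | f s ∈ S}

theorem ofR (a b : ℝ) (hb : 0 < b) : ENNReal.ofReal (a / b) = ENNReal.ofReal a / ENNReal.ofReal b :=
  ENNReal.ofReal_div_of_pos hb

theorem e54 : ENNReal.ofReal (5 / 4) = 5 / 4 := by
  rw [ofR _ _ (by norm_num)]; norm_num

theorem solve {x y : ℝ≥0∞} (h : 7 / 4 * x ≤ y) : x ≤ 4 / 7 * y := by
  have e2 : (4 / 7 : ℝ≥0∞) * (7 / 4) = 1 := by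
    have a1 : (4 / 7 : ℝ≥0∞) = ENNReal.ofReal (4 / 7) := by
      rw [ofR _ _ (by norm_num)]; norm_num
    have a2 : (7 / 4 : ℝ≥0∞) = ENNReal.ofReal (7 / 4) := by
      rw [ofR _ _ (by norm_num)]; norm_num
    rw [a1, a2, ← ENNReal.ofReal_mul (by norm_num)]
    norm_num
  calc x = 4 / 7 * (7 / 4 * x) := by rw [← mul_assoc, e2, one_mul]
    _ ≤ 4 / 7 * y := by gcongr

theorem lip_null {K : ℝ≥0} {f : ℝ → ℂ} (hf : LipschitzWith K f) : μH[5 / 4] (Set.range f) = 0 := by
  have h1 : dimH (Set.range f) ≤ 1 := by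
    have h := hf.dimH_range_le
    rwa [Real.dimH_univ] at h
  have h2 : dimH (Set.range f) < ((5 / 4 : ℝ≥0) : ℝ≥0∞) := by
    refine lt_of_le_of_lt h1 ?_
    rw [← ENNReal.coe_one, ENNReal.coe_lt_coe]
    norm_num
  have h3 := hausdorffMeasure_of_dimH_lt h2
  have e : (((5 / 4 : ℝ≥0) : ℝ)) = 5 / 4 := by push_cast; ring
  rwa [e] at h3

theorem e34' : (2 : ℝ≥0∞) - 5 / 4 = 3 / 4 := by
  rw [← e54, show (2 : ℝ≥0∞) = ENNReal.ofReal 2 by norm_num, ← ENNReal.ofReal_sub _ (by norm_num),
    show (2 : ℝ) - 5 / 4 = 3 / 4 by norm_num, ofR _ _ (by norm_num)]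
  norm_num

theorem e37 : (4 / 7 : ℝ≥0∞) * (3 / 4) = 3 / 7 := by
  rw [show (4 / 7 : ℝ≥0∞) = ENNReal.ofReal (4 / 7) by rw [ofR _ _ (by norm_num)]; norm_num,
    show (3 / 4 : ℝ≥0∞) = ENNReal.ofReal (3 / 4) by rw [ofR _ _ (by norm_num)]; norm_num,
    ← ENNReal.ofReal_mul (by norm_num), show (4 / 7 * (3 / 4) : ℝ) = 3 / 7 by norm_num,
    ofR _ _ (by norm_num)]
  norm_num

theorem dimC : dimH (Set.univ : Set ℂ) = 2 := by
  rw [Real.dimH_univ_eq_finrank ℂ, Complex.finrank_real_complex]
  norm_num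

/-- A curve all of whose pieces have dimension `7/4` is not constant on intervals. -/
theorem nonconst {f : C(unitInterval, ℂ)} (hf : ∀ s t : unitInterval, s < t →
    dimH (f '' Set.Icc s t) = 7 / 4) (s t : unitInterval) (hst : s < t) :
    ∃ u ∈ Set.Icc s t, f u ≠ f s := by
  by_contra hcon
  push Not at hcon
  have h4 : f '' Set.Icc s t ⊆ {f s} := by
    rintro w ⟨u, hu, rfl⟩
    exact hcon u hu
  have h5 := dimH_mono h4
  rw [hf s t hst, dimH_singleton] at h5
  exact absurd h5 (not_le.2 (ENNReal.div_pos (by norm_num) (by norm_num)))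

theorem result :
    (∀ φ : ℕ → ℕ, Tendsto φ atTop atTop → ∃ ψ : ℕ → ℕ, StrictMono ψ ∧
      ∃ μ : ProbabilityMeasure C(unitInterval, ℂ),
        Tendsto (fun i => lawH (φ (ψ i))) atTop (𝓝 μ)) ∧
    (∀ φ : ℕ → ℕ, Tendsto φ atTop atTop → ∀ μ : ProbabilityMeasure C(unitInterval, ℂ),
      Tendsto (fun i => lawH (φ i)) atTop (𝓝 μ) →
      (∀ T : Set ℂ, ∀ᵐ f : C(unitInterval, ℂ) ∂(μ : Measure C(unitInterval, ℂ)),
        dimH (localCutPoints f ∩ T ∩ upperHalf) ≤ dimH T - 5 / 4 ∧
        dimH (times f (localCutPoints f ∩ T ∩ upperHalf)) ≤ 4 / 7 * (dimH T - 5 / 4) ∧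
        (μH[5 / 4] T = 0 → localCutPoints f ∩ T ∩ upperHalf = ∅)) ∧
      (∀ᵐ f : C(unitInterval, ℂ) ∂(μ : Measure C(unitInterval, ℂ)),
        dimH (localCutPoints f ∩ upperHalf) ≤ 3 / 4 ∧
        dimH (times f (localCutPoints f ∩ upperHalf)) ≤ 3 / 7) ∧
      (∀ (K : ℝ≥0) (g : ℝ → ℂ), LipschitzWith K g →
        ∀ᵐ f : C(unitInterval, ℂ) ∂(μ : Measure C(unitInterval, ℂ)),
        localCutPoints f ∩ Set.range g ∩ upperHalf = ∅)) := by
  refine ⟨UniformDimension.result.1, fun φ hφ μ hμ => ?_⟩
  have key : ∀ T : Set ℂ, ∀ᵐ f : C(unitInterval, ℂ) ∂(μ : Measure C(unitInterval, ℂ)),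
        dimH (localCutPoints f ∩ T ∩ upperHalf) ≤ dimH T - 5 / 4 ∧
        dimH (times f (localCutPoints f ∩ T ∩ upperHalf)) ≤ 4 / 7 * (dimH T - 5 / 4) ∧
        (μH[5 / 4] T = 0 → localCutPoints f ∩ T ∩ upperHalf = ∅) := by
    intro T
    filter_upwards [UniformDimension.result.2 φ hφ μ hμ,
      Displacement.result.2.2.2.2.2 φ hφ μ hμ,
      Pool.Agent.N948.IX.lim Pool.Agent.N948.IX.hioUp φ hφ μ hμ T] with f hf hq hc
    obtain ⟨-, -, -, hdim, -⟩ := hq
    obtain ⟨h1, h2⟩ := hc (nonconst hdim)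
    rw [e54] at h1
    have htime : ∀ S : Set ℂ, 7 / 4 * dimH (times f S) ≤ dimH S := by
      intro S
      rw [← hf (times f S)]
      apply dimH_mono
      rintro _ ⟨s, hs, rfl⟩
      exact hs
    exact ⟨h1, solve ((htime _).trans h1), h2⟩
  refine ⟨key, ?_, fun K g hg => ?_⟩
  · filter_upwards [key Set.univ] with f hf
    obtain ⟨q1, q2, -⟩ := hf
    rw [dimC, e34', Set.inter_univ] at q1
    rw [dimC, e34', Set.inter_univ, e37] at q2
    exact ⟨q1, q2⟩
  · filter_upwards [key (Set.range g)] with f hf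
    exact hf.2.2 (lip_null hg)

end Pool.Agent.N948.Shelf.CutPoints
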