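import Pool.Agent.N956.PV.Top

/-!
# Small displacements of the outer perimeter of the largest critical percolation cluster

Critical bond percolation on `ℤ²` in the box `Λ_n = {0, …, n}²`: `F` is the set of open edges,
uniformly distributed on the subsets of `edges n`, and `Largest n F v` says that the cluster of `v`
has the largest Euclidean diameter (`Pool/Agent/H342R2/Per/Plain.lean`). The closed lattice path
around this cluster, which traces the boundary of the unbounded component of its complement, is
divided by `n` and run at constant speed on `[0, 1]`, and `T` is its number of steps divided by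
`n ^ (7/4)` (`IsNatural n F v (f, T)` below). We consider the law of the pair `(f, T)` in
`X = C([0, 1], ℂ) × ℝ`; `H342L.lawOf n f` is the law of `f F`.

The result: these laws are relatively compact, and there are universal constants such that, for
every subsequential limit, almost surely, `T > 0`, and
(1) Chung's law of the iterated logarithm at almost every time `t`: the lower limit of
`sup {|f(s) - f(t)| : T |s - t| ≤ h} / χ(h)`, `h → 0`, `χ(h) = h ^ (4/7) (log log (1/h)) ^ (-1/14)`,
is between `a` and `b` (the lower bound holds for all small `h` on each side of `t` separately);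
(2) for all `θ ≥ θ₀` and all `s < t` simultaneously, the set of the `θ`-slow times in `[s, t]` at
which the curve is in the open square has Hausdorff dimension between `1 - C θ ^ (-14)` and
`1 - c θ ^ (-14)`, and its image has the dimension multiplied by `7/4`. A time `u` is `θ`-slow if,
for arbitrarily small `h`, the curve stays within distance `θ h ^ (4/7) (log (1/h)) ^ (-1/14)` of
`f u` during the natural time `h` before and after `u`.

Other definitions: `Pool/Agent/H342R3/Lim/{Defs,Law}.lean` (`pt`, `lawOf`),
`Pool/Agent/H342R3/Tig/Defs.lean` (`poly`), `Pool/Agent/H984R3/Per/Defs.lean` (states of the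
lattice path, `face`, `orb`), `Pool/Agent/H984R4/NP/Model.lean` (`X`).

The proof transfers the starting results `ChungLaw` (`MP_fe58d8_pr`) and `SlowTimes`
(`MP_216314_pr`) on the exploration paths of rectangles: almost surely every time at which the limit
curve is in the open square is in the interior of an arc which is a copy (translated, with the same
natural time) of an arc of a limit of exploration paths (`Pool.Agent.R967.Per`).
-/

set_option autoImplicit false

namespace Pool.Agent.N948.Shelf.PerimeterSlowTimes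

open H342P.Plain H342L H984P H984N MeasureTheory Filter Topology
open scoped ENNReal

/-- `p = (f, T)`: `f` is the closed lattice path which traces the boundary of the unbounded
component of the complement of the cluster of `v`, divided by `n` and with constant speed on
`[0, 1]`, and `T` is its number of steps divided by `n ^ (7/4)`. The path starts at a vertex `σ.1` of
the cluster with the face `face σ` of the unbounded component on its left; at each step it follows
the next edge (in clockwise order) if this edge is open, and turns clockwise around the vertex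
otherwise, until it comes back to the initial state for the first time. -/
def IsNatural (n : ℕ) (F : Finset Edge) (v : ℤ × ℤ) (p : X) : Prop :=
  ∃ (σ : St) (N : ℕ), 0 < N ∧ σ.1 ∈ cluster F v ∧ Outer F v (face σ) ∧
    orb (↑F) σ N = σ ∧ (∀ j, 0 < j → j < N → orb (↑F) σ j ≠ σ) ∧
    p = (H342T.poly (fun j => pt n (orb (↑F) σ j).1) N, (N : ℝ) / (n : ℝ) ^ (7/4 : ℝ))

/-- The open unit square. -/
def openSquare : Set ℂ := {z | 0 < z.re ∧ z.re < 1 ∧ 0 < z.im ∧ z.im < 1}

/-- `max 1 (log log (1/x))` -/
noncomputable def ll (x : ℝ) : ℝ := max 1 (Real.log (Real.log (1 / x)))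

/-- `χ(h) = h ^ (4/7) (log log (1/h)) ^ (-1/14)` -/
noncomputable def chi (h : ℝ) : ℝ := h ^ (4/7 : ℝ) / ll h ^ (1/14 : ℝ)

/-- `u` is a `θ`-slow time of `p = (f, T)`: for arbitrarily small `h > 0`, `f` stays within distance
`θ h ^ (4/7) (log (1/h)) ^ (-1/14)` of `f u` at all times `v` with `T |v - u| ≤ h`. -/
def Slow (θ : ℝ) (p : X) (u : unitInterval) : Prop :=
  ∃ᶠ h : ℝ in 𝓝[>] 0, ∀ v : unitInterval, p.2 * |(v : ℝ) - u| ≤ h →
    dist (p.1 v) (p.1 u) ≤ θ * (h ^ (4/7 : ℝ) / Real.log (1 / h) ^ (1/14 : ℝ))

/-- The `θ`-slow times in `[s, t]` at which the curve is in the open square. -/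
def slowTimes (θ : ℝ) (p : X) (s t : unitInterval) : Set unitInterval :=
  {u | u ∈ Set.Icc s t ∧ p.1 u ∈ openSquare ∧ Slow θ p u}

theorem result : ∃ a b c C θ₀ : ℝ, 0 < a ∧ 0 < b ∧ 0 < c ∧ 0 < C ∧ 0 < θ₀ ∧ C / θ₀ ^ 14 < 1 ∧
    ∀ (sel : (n : ℕ) → Finset Edge → ℤ × ℤ) (f : (n : ℕ) → Finset Edge → X),
      (∀ n F, 0 < n → F ⊆ edges n → Largest n F (sel n F)) →
      (∀ n F, 0 < n → F ⊆ edges n → IsNatural n F (sel n F) (f n F)) →
      (∀ k : ℕ → ℕ, Tendsto k atTop atTop → ∃ (φ : ℕ → ℕ) (μ : ProbabilityMeasure X),
        StrictMono φ ∧ Tendsto (fun i => lawOf (k (φ i)) (f (k (φ i)))) atTop (𝓝 μ)) ∧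
      ∀ (k : ℕ → ℕ), Tendsto k atTop atTop → ∀ μ : ProbabilityMeasure X,
        Tendsto (fun i => lawOf (k i) (f (k i))) atTop (𝓝 μ) →
        ∀ᵐ p ∂(μ : Measure X), p.1 0 = p.1 1 ∧ 0 < p.2 ∧
          (∀ᵐ t : unitInterval,
            (∀ᶠ h : ℝ in 𝓝[>] 0, ∀ s : unitInterval, p.2 * |(s : ℝ) - t| = h →
              ∃ x ∈ Set.uIcc s t, a * chi h < dist (p.1 x) (p.1 t)) ∧
            (∃ᶠ h : ℝ in 𝓝[>] 0, ∀ s : unitInterval, p.2 * |(s : ℝ) - t| ≤ h →
              dist (p.1 s) (p.1 t) ≤ b * chi h)) ∧
          ∀ θ : ℝ, θ₀ ≤ θ → ∀ s t : unitInterval, s < t →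
            (ENNReal.ofReal (1 - C / θ ^ 14) ≤ dimH (slowTimes θ p s t) ∧
              dimH (slowTimes θ p s t) ≤ ENNReal.ofReal (1 - c / θ ^ 14)) ∧
            dimH (p.1 '' slowTimes θ p s t) = 7 / 4 * dimH (slowTimes θ p s t) := by
  obtain ⟨a, b, c, C, θ0, ha, hb, hc, hC, hθ, hCθ, h⟩ := Pool.Agent.N956.PV.slow_top
  refine ⟨a, b, c, C, θ0, ha, hb, hc, hC, hθ, hCθ, fun sel f h1 h2 => ?_⟩
  have hsel : Pool.Agent.Y995.LG.Sel sel f := ⟨h1, h2⟩
  refine ⟨fun k hk => Pool.Agent.Y995.LG.tight0 sel f hsel k hk, fun k hk μ hμ => ?_⟩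
  filter_upwards [h sel f hsel k hk μ hμ] with p hp
  exact hp

end Pool.Agent.N948.Shelf.PerimeterSlowTimes
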